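import Pool.Agent.Helper119.MG.Spectrum

/-! MP_64eec5_gt: every value `α` in `[1/2, 1]` is a limit of the logarithmic densities of the
terms of the Johnson filtration, uniformly in `m`, for explicit generating sets
`S ∪ {t_0, ..., t_{n-1}} ∪ {z_0, ..., z_{k-1}}` with `k = ⌊n^α⌋`. -/

open Filter Topology

namespace Pool.Agent.Results.MP_64eec5_gt.AllValues

open Pool.Agent.Helper119.MG

theorem result :
    -- uniform bounds with an explicit rate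
    (∀ C : ℝ, ∃ K : ℝ, ∀ g : ℕ, 2 ≤ g → ∀ α : ℝ, 1 / 2 ≤ α → α ≤ 1 →
      ∀ (S : Finset (Helper119.MG.Mod g)) (n : ℕ), 2 ≤ n → (S.card : ℝ) ^ 2 ≤ C * n →
      Generates (withBoth S n ⌊(n : ℝ) ^ α⌋₊) →
      ∀ m : ℕ, 1 ≤ m → Near (withBoth S n ⌊(n : ℝ) ^ α⌋₊) m α (K / Real.log n)) ∧
    -- fixed genus, `n → ∞`, uniformly in `m`
    (∀ g : ℕ, 2 ≤ g → ∀ α : ℝ, 1 / 2 ≤ α → α ≤ 1 → ∀ S : Finset (Helper119.MG.Mod g),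
      Generates (S : Set (Helper119.MG.Mod g)) →
      ∀ ε : ℝ, 0 < ε → ∀ᶠ n : ℕ in atTop, ∀ m : ℕ, 1 ≤ m →
        Near (withBoth S n ⌊(n : ℝ) ^ α⌋₊) m α ε) ∧
    -- `g → ∞`, uniformly in `m`
    (∀ α : ℝ, 1 / 2 ≤ α → α ≤ 1 → ∀ (S : ∀ g : ℕ, Finset (Helper119.MG.Mod g)) (n : ℕ → ℕ)
      (C : ℝ), Tendsto n atTop atTop → (∀ g, 2 ≤ g → ((S g).card : ℝ) ^ 2 ≤ C * n g) →
      (∀ g, 2 ≤ g → Generates (withBoth (S g) (n g) ⌊(n g : ℝ) ^ α⌋₊)) →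
      ∀ ε : ℝ, 0 < ε → ∀ᶠ g : ℕ in atTop, ∀ m : ℕ, 1 ≤ m →
        Near (withBoth (S g) (n g) ⌊(n g : ℝ) ^ α⌋₊) m α ε) :=
  ⟨spectrum_rate, fun _ hg _ h h1 S hS _ hε => spectrum_n hg h h1 S hS hε,
    fun _ h h1 S n C hn hc hS _ hε => spectrum_g h h1 S n C hn hc hS hε⟩

end Pool.Agent.Results.MP_64eec5_gt.AllValues
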