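import Pool.Agent.Helper119.MG.Asym

/-! MP_64eec5_gt: for generating sets `S ∪ {t_0, ..., t_{n-1}}` of the mapping class group of the
closed surface of genus `g ≥ 2`, where `t_i` is the fifth power of the Dehn twist about
`T_a^i(b)` and `|S|² ≤ C n`, the upper and the lower logarithmic densities of every term
`T_g(m)`, `m ≥ 1`, of the Johnson filtration are within `K / log n` of `1/2`, with `K` depending
only on `C`. -/

open Filter Topology

namespace Pool.Agent.Results.MP_64eec5_gt.HalfDensity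

open Pool.Agent.Helper119.MG

theorem result :
    -- uniform bounds with an explicit rate
    (∀ C : ℝ, ∃ K : ℝ, ∀ g : ℕ, 2 ≤ g → ∀ (S : Finset (Helper119.MG.Mod g)) (n : ℕ), 2 ≤ n →
      (S.card : ℝ) ^ 2 ≤ C * n → Generates (withTwists S n) →
      ∀ m : ℕ, 1 ≤ m → NearHalf (withTwists S n) m (K / Real.log n)) ∧
    -- fixed genus, `n → ∞`, uniformly in `m`
    (∀ g : ℕ, 2 ≤ g → ∀ S : Finset (Helper119.MG.Mod g),
      Generates (S : Set (Helper119.MG.Mod g)) →
      ∀ ε : ℝ, 0 < ε → ∀ᶠ n : ℕ in atTop, ∀ m : ℕ, 1 ≤ m → NearHalf (withTwists S n) m ε) ∧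
    -- `g → ∞`, uniformly in `m`
    (∀ (S : ∀ g : ℕ, Finset (Helper119.MG.Mod g)) (n : ℕ → ℕ) (C : ℝ), Tendsto n atTop atTop →
      (∀ g, 2 ≤ g → ((S g).card : ℝ) ^ 2 ≤ C * n g) →
      (∀ g, 2 ≤ g → Generates (withTwists (S g) (n g))) →
      ∀ ε : ℝ, 0 < ε → ∀ᶠ g : ℕ in atTop, ∀ m : ℕ, 1 ≤ m →
        NearHalf (withTwists (S g) (n g)) m ε) :=
  ⟨half_rate, fun _ hg S hS _ hε => half_limit_n hg S hS hε,
    fun S n C hn hc hS _ hε => half_limit_g S n C hn hc hS hε⟩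

end Pool.Agent.Results.MP_64eec5_gt.HalfDensity
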