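import Pool.Agent.Helper119.MG.Lick

/-! MP_64eec5_gt: for Lickorish's twists (and for Humphries' generators), the lower logarithmic
density of every term of the Johnson filtration is at least `1/10`, for all `g ≥ 2` and `m`. -/

open Filter Topology

namespace Pool.Agent.Results.MP_64eec5_gt.LickorishUniform

open Pool.Agent.Helper119.MG

theorem result (g : ℕ) (hg : 2 ≤ g) (S : Set (Helper119.MG.Mod g)) (hS : S ⊆ lickorish g)
    (ha : ∀ φ : orientedAut g, IsTwistA ⟨0, by omega⟩ φ → toMod φ ∈ S)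
    (hb : ∀ φ : orientedAut g, IsTwistB ⟨0, by omega⟩ φ → toMod φ ∈ S)
    (hl : ∀ φ : orientedAut g, IsTwistL 0 (by omega) φ → toMod φ ∈ S) (m : ℕ) :
    1 / 10 ≤ lowerLogDensity S (johnson g m) :=
  lickorish_lower hg hS ⟨ha _ ((isTwistA_iff _ _).2 rfl), hb _ ((isTwistB_iff _ _).2 rfl),
    hl _ ((isTwistL_iff _ _ _).2 rfl)⟩ m

end Pool.Agent.Results.MP_64eec5_gt.LickorishUniform
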