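import Pool.Agent.Helper119.MG.Asym

/-! MP_64eec5_gt: for every `g ≥ 2` and every finite generating set `S` of the mapping class
group of genus `g`, the limits over `m` of the lower and upper logarithmic densities of the terms
of the Johnson filtration are positive. -/

open Filter Topology

namespace Pool.Agent.Results.MP_64eec5_gt.PositiveLimit

open Pool.Agent.Helper119.MG

theorem result (g : ℕ) (hg : 2 ≤ g) (S : Finset (Helper119.MG.Mod g))
    (hgen : Generates (S : Set (Helper119.MG.Mod g))) :
    ∃ a b : ℝ, 0 < a ∧ a ≤ b ∧
      Tendsto (fun m => lowerLogDensity (S : Set (Helper119.MG.Mod g)) (johnson g m)) atTop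
        (𝓝 a) ∧
      Tendsto (fun m => upperLogDensity (S : Set (Helper119.MG.Mod g)) (johnson g m)) atTop
        (𝓝 b) ∧
      ∀ m : ℕ, a ≤ lowerLogDensity (S : Set (Helper119.MG.Mod g)) (johnson g m) ∧
        b ≤ upperLogDensity (S : Set (Helper119.MG.Mod g)) (johnson g m) :=
  positive_limits hg S hgen

end Pool.Agent.Results.MP_64eec5_gt.PositiveLimit
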